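import Pool.Agent.helper39.P3.WBasic

/-!
# P3, module A4 (Return): return lemma for an arbitrary valuation
-/

namespace Pool.Agent.helper56.P3

open Finset Pool.Agent.helper56.Per

section A4

variable {K : Type*} [Field K] {b c : K} {n m : ℕ} {lam lam' : K} {W W' : ℕ → K}
variable {Γ : Type*} [LinearOrderedCommGroupWithZero Γ] (v : Valuation K Γ)

private theorem Ctx.b0' (hc : Ctx v b c) : b ≠ 0 := by
  rintro rfl
  have := hc.vb
  rw [map_zero] at this
  exact zero_ne_one this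

private theorem Ctx.b1' (hc : Ctx v b c) : b ≠ 1 := by
  rintro rfl
  have := hc.hbc
  rw [sub_self, map_zero] at this
  exact not_lt_zero this

theorem Ctx.us (hc : Ctx v b c) : v (Us b c - 1) < v c := by
  have hb1 : b - 1 ≠ 0 := sub_ne_zero.2 (Ctx.b1' v hc)
  have hvb1 : 0 < v (b - 1) := zero_lt_iff.2 ((Valuation.ne_zero_iff _).2 hb1)
  have hvc : 0 < v c := zero_lt_iff.2 ((Valuation.ne_zero_iff _).2 hc.c0)
  have e : Us b c - 1 = -(c ^ 2 / (b - 1)) := by unfold Us; ring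
  rw [e, Valuation.map_neg, map_div₀, map_pow, div_lt_iff₀ hvb1, pow_two]
  exact mul_lt_mul_of_pos_left hc.hbc hvc

/-- the return lemma for an orbit segment -/
theorem ret_orbit (hc : Ctx v b c) {x : ℕ → K} {j : ℕ} (hj : 0 < j)
    (hx : ∀ l < j, x (l + 1) = (x l + (x l)⁻¹ + (b - 1 - c ^ 2) / c) / b)
    (hbig : ∀ l, 0 < l → l < j → 1 < v (x l)) :
    v (x j - (b⁻¹ ^ j * (x 0 + (x 0)⁻¹) + Us b c * TT b c j)) < 1 := by
  have h1 := iter_orbit (Ctx.b0' v hc) (Ctx.b1' v hc) hc.c0 j hx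
  obtain ⟨k, rfl⟩ : ∃ k, j = k + 1 := ⟨j - 1, by omega⟩
  rw [Finset.sum_range_succ'] at h1
  have e : x (k + 1) - (b⁻¹ ^ (k + 1) * (x 0 + (x 0)⁻¹) + Us b c * TT b c (k + 1)) =
      ∑ l ∈ range k, b⁻¹ ^ (k + 1 - (l + 1)) * (x (l + 1))⁻¹ := by
    rw [h1, Nat.sub_zero]; ring
  rw [e]
  refine Valuation.map_sum_lt v one_ne_zero fun l hl => ?_
  rw [map_mul, map_pow, map_inv₀, hc.vb, inv_one, one_pow, one_mul, map_inv₀]
  exact inv_lt_one_of_one_lt₀ (hbig (l + 1) (by omega) (by have := mem_range.1 hl; omega))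

theorem WCyc.ret (h : WCyc b c n lam W) (hc : Ctx v b c) {i j : ℕ} (hj : 0 < j)
    (hbig : ∀ l, 0 < l → l < j → 1 < v (W (i + l))) :
    v (W (i + j) - (b⁻¹ ^ j * (W i + (W i)⁻¹) + Us b c * TT b c j)) < 1 :=
  ret_orbit v hc (x := fun l => W (i + l)) hj (fun l _ => h.step' (i + l)) hbig

theorem WCyc.exists_gap (h : WCyc b c n lam W) {i0 : ℕ} (h0 : v (W i0) ≤ 1) (i : ℕ) :
    ∃ s, IsGap v W i s ∧ s ≤ n := by
  classical
  have hper : Function.Periodic W n := h.per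
  have hex : ∃ s, 0 < s ∧ v (W (i + s)) ≤ 1 ∧ s ≤ n := by
    refine ⟨(i0 + n * (i + 1) - (i + 1)) % n + 1, Nat.succ_pos _, ?_,
      Nat.succ_le_of_lt (Nat.mod_lt _ h.npos)⟩
    have hle : i + 1 ≤ i0 + n * (i + 1) := by
      have := Nat.le_mul_of_pos_left (i + 1) h.npos
      omega
    have e : W (i + ((i0 + n * (i + 1) - (i + 1)) % n + 1)) = W i0 := by
      rw [← hper.map_mod_nat, ← hper.map_mod_nat i0]
      congr 1
      have e1 : (i + ((i0 + n * (i + 1) - (i + 1)) % n + 1)) % n =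
          (i + 1 + (i0 + n * (i + 1) - (i + 1))) % n := by
        rw [show i + ((i0 + n * (i + 1) - (i + 1)) % n + 1) =
          (i + 1) + (i0 + n * (i + 1) - (i + 1)) % n by ring, Nat.add_mod_mod]
      rw [e1, Nat.add_sub_cancel' hle, Nat.add_mul_mod_self_left]
    rw [e]
    exact h0
  have hex' : ∃ s, 0 < s ∧ v (W (i + s)) ≤ 1 := ⟨_, hex.choose_spec.1, hex.choose_spec.2.1⟩
  refine ⟨Nat.find hex', ⟨(Nat.find_spec hex').1, (Nat.find_spec hex').2, ?_⟩, ?_⟩
  · intro l hl0 hl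
    have := Nat.find_min hex' hl
    by_contra hcon
    exact this ⟨hl0, not_lt.1 hcon⟩
  · obtain ⟨s, hs0, hs1, hs2⟩ := hex
    exact (Nat.find_min' hex' ⟨hs0, hs1⟩).trans hs2

variable {v} in
private theorem IsGap.le_aux {i s s' : ℕ} (h : IsGap v W i s) (h' : IsGap v W i s') : s ≤ s' := by
  by_contra hcon
  have h1 := h.2.2 s' h'.1 (not_le.1 hcon)
  exact absurd h'.2.1 (not_le.2 h1)

theorem IsGap.unique {i s s' : ℕ} (h : IsGap v W i s) (h' : IsGap v W i s') : s = s' :=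
  le_antisymm (IsGap.le_aux h h') (IsGap.le_aux h' h)

theorem WCyc.gap_eq (h : WCyc b c n lam W) (hc : Ctx v b c) {i s : ℕ} (hs : IsGap v W i s) :
    v (W i + (W i)⁻¹ + b ^ s * (Us b c * TT b c s)) ≤ 1 := by
  have h1 := h.ret v hc hs.1 hs.2.2
  have h2 : v (b⁻¹ ^ s * (W i + (W i)⁻¹) + Us b c * TT b c s) ≤ 1 := by
    have e : b⁻¹ ^ s * (W i + (W i)⁻¹) + Us b c * TT b c s =
        W (i + s) - (W (i + s) - (b⁻¹ ^ s * (W i + (W i)⁻¹) + Us b c * TT b c s)) := by ring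
    rw [e]
    exact v.map_sub_le hs.2.1 h1.le
  have hb0 := Ctx.b0' v hc
  have e : W i + (W i)⁻¹ + b ^ s * (Us b c * TT b c s) =
      b ^ s * (b⁻¹ ^ s * (W i + (W i)⁻¹) + Us b c * TT b c s) := by
    have hbs : b ^ s * b⁻¹ ^ s = 1 := by rw [← mul_pow, mul_inv_cancel₀ hb0, one_pow]
    linear_combination (-(W i + (W i)⁻¹)) * hbs
  rw [e, map_mul, map_pow, hc.vb, one_pow, one_mul]
  exact h2

private theorem factor_le (w : K) (hw : 1 ≤ v w) : v (1 - (w ^ 2)⁻¹) ≤ 1 := by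
  refine v.map_sub_le (by rw [map_one]) ?_
  rw [map_inv₀, map_pow]
  exact inv_le_one_of_one_le₀ (one_le_pow_of_one_le' hw 2)

private theorem factor_out (w : K) (hw : 1 < v w) : v (1 - (w ^ 2)⁻¹) = 1 := by
  have h1 : v ((w ^ 2)⁻¹) < 1 := by
    rw [map_inv₀, map_pow]
    exact inv_lt_one_of_one_lt₀ (one_lt_pow' hw two_ne_zero)
  rw [sub_eq_add_neg, Valuation.map_add_eq_of_lt_left, map_one]
  rw [map_one, Valuation.map_neg]
  exact h1

private theorem factor_eq (w : K) (hw0 : w ≠ 0) : v (w ^ 2 - 1) = v w ^ 2 * v (1 - (w ^ 2)⁻¹) := by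
  rw [← map_pow, ← map_mul]
  congr 1
  field_simp

/-- if all points are `≥ 1` then the multiplier is integral -/
theorem WCyc.lam_le (h : WCyc b c n lam W) (hb : v b = 1) (hge : ∀ i, 1 ≤ v (W i)) :
    v lam ≤ 1 := by
  have h1 := congrArg v h.lam_prod
  rw [map_prod, map_mul, map_pow, hb, one_pow, mul_one] at h1
  rw [← h1]
  exact Finset.prod_le_one' fun i _ => factor_le v _ (hge i)

theorem WCyc.lam_eq_of_out (h : WCyc b c n lam W) (hb : v b = 1) (hO : TyO v W) :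
    v lam = 1 := by
  have h1 := congrArg v h.lam_prod
  rw [map_prod, map_mul, map_pow, hb, one_pow, mul_one] at h1
  rw [← h1]
  exact Finset.prod_eq_one fun i _ => factor_out v _ (hO i)

/-- all `≥ 1`, `v lam = 1` : no near-critical visit -/
theorem WCyc.no_near (h : WCyc b c n lam W) (hb : v b = 1) (hl : v lam = 1)
    (hge : ∀ i, 1 ≤ v (W i)) (i : ℕ) : v (W i ^ 2 - 1) = v (W i) ^ 2 := by
  have h1 := congrArg v h.lam_prod
  rw [map_prod, map_mul, map_pow, hb, one_pow, mul_one, hl] at h1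
  have h2 := (Finset.prod_eq_one_iff_of_le_one' (s := range n)
    (f := fun i => v (1 - (W i ^ 2)⁻¹)) fun i _ => factor_le v _ (hge i)).1 h1
  have hper : Function.Periodic W n := h.per
  rw [← hper.map_mod_nat i, factor_eq v _ (h.ne0 _),
    h2 (i % n) (mem_range.2 (Nat.mod_lt _ h.npos)), mul_one]

/-- a hole forces a near-critical visit if `v lam = 1` -/
theorem WCyc.near_exists (h : WCyc b c n lam W) (hb : v b = 1) (hl : v lam = 1)
    (hII : TyII v W) : ∃ i, v (W i) = 1 ∧ v (W i ^ 2 - 1) < 1 := by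
  by_contra hcon
  push Not at hcon
  have h1 := congrArg v h.lam_prod
  rw [map_prod, map_mul, map_pow, hb, one_pow, mul_one, hl] at h1
  have hsmall : ∀ w : K, w ≠ 0 → v w < 1 → 1 < v (1 - (w ^ 2)⁻¹) := by
    intro w hw0 hw
    have h2 : 1 < v ((w ^ 2)⁻¹) := by
      rw [map_inv₀, map_pow]
      refine (one_lt_inv₀ (zero_lt_iff.2 (pow_ne_zero _ ((Valuation.ne_zero_iff _).2 hw0)))).2 ?_
      exact pow_lt_one' hw two_ne_zero
    rw [sub_eq_add_neg, Valuation.map_add_eq_of_lt_right, Valuation.map_neg]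
    · exact h2
    · rw [map_one, Valuation.map_neg]; exact h2
  have hge : ∀ i, 1 ≤ v (1 - (W i ^ 2)⁻¹) := by
    intro i
    rcases lt_trichotomy (v (W i)) 1 with h2 | h2 | h2
    · exact (hsmall _ (h.ne0 i) h2).le
    · have h3 := hcon i h2
      rw [factor_eq v _ (h.ne0 i), h2, one_pow, one_mul] at h3
      exact h3
    · exact (factor_out v _ h2).ge
  have h2 := (Finset.prod_eq_one_iff_of_one_le' (s := range n)
    (f := fun i => v (1 - (W i ^ 2)⁻¹)) fun i _ => hge i).1 h1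
  obtain ⟨i, hi⟩ := hII
  have hper : Function.Periodic W n := h.per
  rw [← hper.map_mod_nat i] at hi
  have h3 := hsmall _ (h.ne0 _) hi
  rw [h2 (i % n) (mem_range.2 (Nat.mod_lt _ h.npos))] at h3
  exact lt_irrefl _ h3

end A4

end Pool.Agent.helper56.P3
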