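import Pool.Agent.helper96.P3.Return

/-!
# P3, modules H2 (Gauss) and H3 (Beta): cycles at Gauss-type valuations
-/

namespace Pool.Agent.helper56.P3

open Finset Pool.Agent.helper56.Per

section H2

variable {K : Type*} [Field K] {b c : K} {n : ℕ} {lam : K} {W : ℕ → K}
variable {Γ : Type*} [LinearOrderedCommGroupWithZero Γ] (v : Valuation K Γ)

theorem GCtx.ctx (G : GCtx v b c) : Ctx v b c := by
  refine ⟨G.vb, G.vc, G.c0, ?_⟩
  have := G.one 1 one_pos
  rw [pow_one] at this
  rw [this]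
  exact G.vc

private theorem h96_b0 (G : GCtx v b c) : b ≠ 0 := by
  rintro rfl
  have := G.vb
  rw [map_zero] at this
  exact zero_ne_one this

/-- `b^s Us TT s = Us (b^s - 1) / c` -/
private theorem h96_eq (hb0 : b ≠ 0) (s : ℕ) :
    b ^ s * (Us b c * TT b c s) = Us b c * (b ^ s - 1) / c := by
  unfold TT
  have hbs : b ^ s * b⁻¹ ^ s = 1 := by rw [← mul_pow, mul_inv_cancel₀ hb0, one_pow]
  linear_combination (-(Us b c) / c) * hbs

private theorem h96_us (G : GCtx v b c) : v (Us b c) = 1 := by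
  have h1 : v (Us b c - 1) < 1 := ((GCtx.ctx v G).us v).trans G.vc
  have e : Us b c = 1 + (Us b c - 1) := by ring
  rw [e, Valuation.map_add_eq_of_lt_left, map_one]
  rwa [map_one]

private theorem h96_v (G : GCtx v b c) {s : ℕ} (hs : 0 < s) :
    v (b ^ s * (Us b c * TT b c s)) = (v c)⁻¹ := by
  rw [h96_eq (h96_b0 v G), map_div₀, map_mul, h96_us v G, G.one s hs, one_mul, one_div]

/-- the estimate used for holes and outer points -/
private theorem h96_lt (G : GCtx v b c) {s : ℕ} (hs : 0 < s) {x : K}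
    (hx : v (x + b ^ s * (Us b c * TT b c s)) ≤ 1) :
    v x = (v c)⁻¹ ∧ v (c * x - (1 - b ^ s)) < 1 := by
  have hvc : 0 < v c := zero_lt_iff.2 ((Valuation.ne_zero_iff _).2 G.c0)
  have h1 := h96_v v G hs
  have h2 : 1 < (v c)⁻¹ := (one_lt_inv₀ hvc).2 G.vc
  constructor
  · have e : x = (x + b ^ s * (Us b c * TT b c s)) + -(b ^ s * (Us b c * TT b c s)) := by ring
    rw [e, Valuation.map_add_eq_of_lt_right, Valuation.map_neg, h1]
    rw [Valuation.map_neg, h1]
    exact lt_of_le_of_lt hx h2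
  · have e : c * x - (1 - b ^ s) = c * (x + b ^ s * (Us b c * TT b c s)) +
        -((Us b c - 1) * (b ^ s - 1)) := by
      rw [h96_eq (h96_b0 v G)]
      have := G.c0
      field_simp
      ring
    rw [e]
    refine Valuation.map_add_lt _ ?_ ?_
    · rw [map_mul]
      calc v c * v (x + b ^ s * (Us b c * TT b c s)) ≤ v c * 1 := by gcongr
        _ = v c := mul_one _
        _ < 1 := G.vc
    · rw [Valuation.map_neg, map_mul, G.one s hs, mul_one]
      exact ((GCtx.ctx v G).us v).trans G.vc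

theorem G_hole (G : GCtx v b c) (h : WCyc b c n lam W) {i s : ℕ} (hi : v (W i) ≤ 1)
    (hs : IsGap v W i s) : v (W i) = v c ∧ v (c / W i - (1 - b ^ s)) < 1 := by
  have hvc : 0 < v c := zero_lt_iff.2 ((Valuation.ne_zero_iff _).2 G.c0)
  have h1 := h.gap_eq v (GCtx.ctx v G) hs
  have h2 : v ((W i)⁻¹ + b ^ s * (Us b c * TT b c s)) ≤ 1 := by
    have e : (W i)⁻¹ + b ^ s * (Us b c * TT b c s) =
        (W i + (W i)⁻¹ + b ^ s * (Us b c * TT b c s)) - W i := by ring
    rw [e]
    exact v.map_sub_le h1 hi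
  obtain ⟨h3, h4⟩ := h96_lt v G hs.1 h2
  refine ⟨?_, ?_⟩
  · rw [map_inv₀] at h3
    exact inv_injective h3
  · rw [div_eq_mul_inv]
    exact h4

theorem G_out (G : GCtx v b c) (h : WCyc b c n lam W) {i s : ℕ} (hi : 1 < v (W i))
    (hs : IsGap v W i s) : v (W i) * v c = 1 ∧ v (c * W i - (1 - b ^ s)) < 1 := by
  have hvc0 : v c ≠ 0 := (Valuation.ne_zero_iff _).2 G.c0
  have h1 := h.gap_eq v (GCtx.ctx v G) hs
  have h2 : v (W i + b ^ s * (Us b c * TT b c s)) ≤ 1 := by
    have e : W i + b ^ s * (Us b c * TT b c s) =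
        (W i + (W i)⁻¹ + b ^ s * (Us b c * TT b c s)) - (W i)⁻¹ := by ring
    rw [e]
    refine v.map_sub_le h1 ?_
    rw [map_inv₀]
    exact (inv_lt_one_of_one_lt₀ hi).le
  obtain ⟨h3, h4⟩ := h96_lt v G hs.1 h2
  refine ⟨?_, h4⟩
  rw [h3]
  exact inv_mul_cancel₀ hvc0

/-- products of congruent integral elements are congruent -/
private theorem h96_prod {ι : Type*} (s : Finset ι) (f g : ι → K) (hf : ∀ i ∈ s, v (f i) ≤ 1)
    (hg : ∀ i ∈ s, v (g i) ≤ 1) (hfg : ∀ i ∈ s, v (f i - g i) < 1) :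
    v (∏ i ∈ s, f i - ∏ i ∈ s, g i) < 1 := by
  classical
  induction s using Finset.induction_on with
  | empty => simp
  | insert a s ha ih =>
    rw [prod_insert ha, prod_insert ha]
    have e : f a * ∏ i ∈ s, f i - g a * ∏ i ∈ s, g i =
        f a * (∏ i ∈ s, f i - ∏ i ∈ s, g i) + (f a - g a) * ∏ i ∈ s, g i := by ring
    have h1 := ih (fun i hi => hf i (mem_insert_of_mem hi)) (fun i hi => hg i (mem_insert_of_mem hi))
      (fun i hi => hfg i (mem_insert_of_mem hi))
    have h2 : v (∏ i ∈ s, g i) ≤ 1 := by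
      rw [map_prod]
      exact Finset.prod_le_one' fun i hi => hg i (mem_insert_of_mem hi)
    rw [e]
    refine Valuation.map_add_lt _ ?_ ?_
    · rw [map_mul]
      calc v (f a) * v (∏ i ∈ s, f i - ∏ i ∈ s, g i) ≤ 1 * v (∏ i ∈ s, f i - ∏ i ∈ s, g i) := by
            gcongr
            exact hf a (mem_insert_self _ _)
        _ < 1 := by rwa [one_mul]
    · rw [map_mul]
      calc v (f a - g a) * v (∏ i ∈ s, g i) ≤ v (f a - g a) * 1 := by gcongr
        _ < 1 := by rw [mul_one]; exact hfg a (mem_insert_self _ _)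

theorem G_prod (G : GCtx v b c) (h : WCyc b c n lam W) (g : ℕ → ℕ)
    (hg : ∀ i, v (W i) ≤ 1 → IsGap v W i (g i)) :
    v lam * v c ^ (2 * #{i ∈ range n | v (W i) ≤ 1}) = 1 ∧
    v (lam * b ^ n * c ^ (2 * #{i ∈ range n | v (W i) ≤ 1})
      - ∏ i ∈ range n with v (W i) ≤ 1, (-(1 - b ^ g i) ^ 2)) < 1 := by
  set F : ℕ → K := fun i => if v (W i) ≤ 1 then c ^ 2 - (c / W i) ^ 2 else 1 - (W i ^ 2)⁻¹ with hF
  set E : ℕ → K := fun i => if v (W i) ≤ 1 then -(1 - b ^ g i) ^ 2 else 1 with hE
  -- the product of the `F i`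
  have hFprod : lam * b ^ n * c ^ (2 * #{i ∈ range n | v (W i) ≤ 1}) = ∏ i ∈ range n, F i := by
    rw [← h.lam_prod, pow_mul, ← prod_const, prod_filter, ← prod_mul_distrib]
    refine prod_congr rfl fun i _ => ?_
    have hw := h.ne0 i
    by_cases hi : v (W i) ≤ 1
    · simp only [hF, if_pos hi]
      field_simp
    · simp only [hF, if_neg hi, mul_one]
  have hEprod : ∏ i ∈ range n with v (W i) ≤ 1, (-(1 - b ^ g i) ^ 2) = ∏ i ∈ range n, E i := by
    rw [prod_filter]
  have hE1 : ∀ i, v (E i) = 1 := by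
    intro i
    by_cases hi : v (W i) ≤ 1
    · simp only [hE, if_pos hi]
      have e : (1 : K) - b ^ g i = -(b ^ g i - 1) := by ring
      rw [Valuation.map_neg, map_pow, e, Valuation.map_neg, G.one _ (hg i hi).1, one_pow]
    · simp only [hE, if_neg hi, map_one]
  have hFE : ∀ i, v (F i - E i) < 1 := by
    intro i
    by_cases hi : v (W i) ≤ 1
    · simp only [hF, hE, if_pos hi]
      obtain ⟨h1, h2⟩ := G_hole v G h hi (hg i hi)
      have h3 : v (c / W i) ≤ 1 := by
        rw [map_div₀, h1, div_self ((Valuation.ne_zero_iff _).2 G.c0)]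
      have h4 : v (1 - b ^ g i) ≤ 1 := by
        have e : (1 : K) - b ^ g i = -(b ^ g i - 1) := by ring
        rw [e, Valuation.map_neg, G.one _ (hg i hi).1]
      have e : c ^ 2 - (c / W i) ^ 2 - -(1 - b ^ g i) ^ 2 =
          c ^ 2 + -((c / W i - (1 - b ^ g i)) * (c / W i + (1 - b ^ g i))) := by ring
      rw [e]
      refine Valuation.map_add_lt _ ?_ ?_
      · rw [map_pow]; exact pow_lt_one' G.vc two_ne_zero
      · rw [Valuation.map_neg, map_mul]
        calc v (c / W i - (1 - b ^ g i)) * v (c / W i + (1 - b ^ g i))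
            ≤ v (c / W i - (1 - b ^ g i)) * 1 := by
              gcongr
              exact v.map_add_le h3 h4
          _ < 1 := by rwa [mul_one]
    · simp only [hF, hE, if_neg hi]
      have e : (1 : K) - (W i ^ 2)⁻¹ - 1 = -(W i ^ 2)⁻¹ := by ring
      rw [e, Valuation.map_neg, map_inv₀, map_pow]
      exact inv_lt_one_of_one_lt₀ (one_lt_pow' (not_le.1 hi) two_ne_zero)
  have hF1 : ∀ i, v (F i) = 1 := by
    intro i
    have e : F i = E i + (F i - E i) := by ring
    rw [e, Valuation.map_add_eq_of_lt_left, hE1]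
    rw [hE1]; exact hFE i
  constructor
  · have h1 := congrArg v hFprod
    rw [map_prod, Finset.prod_eq_one fun i _ => hF1 i, map_mul, map_mul, map_pow, map_pow, G.vb,
      one_pow, mul_one] at h1
    exact h1
  · rw [hFprod, hEprod]
    exact h96_prod v _ _ _ (fun i _ => (hF1 i).le) (fun i _ => (hE1 i).le) (fun i _ => hFE i)

/-- the gaps sum to `n` -/
theorem gap_sum (h : WCyc b c n lam W) (g : ℕ → ℕ)
    (hg : ∀ i, v (W i) ≤ 1 → IsGap v W i (g i)) (hex : ∃ i, v (W i) ≤ 1) :
    ∑ i ∈ range n with v (W i) ≤ 1, g i = n := by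
  have hper : Function.Periodic W n := h.per
  set φ : ℕ → ℕ := fun i => if v (W i) ≤ 1 then g i else 0 with hφ
  -- tiling
  have key : ∀ m j, v (W j) ≤ 1 → v (W (j + m)) ≤ 1 → ∑ i ∈ Ico j (j + m), φ i = m := by
    intro m
    induction m using Nat.strong_induction_on with
    | _ m ih =>
      intro j hj hjm
      rcases Nat.eq_zero_or_pos m with rfl | hm
      · simp
      · have hgap := hg j hj
        have hle : g j ≤ m := by
          by_contra hcon
          exact absurd hjm (not_le.2 (hgap.2.2 m hm (not_le.1 hcon)))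
        have e1 : j + m = (j + g j) + (m - g j) := by omega
        have h2 := ih (m - g j) (by have := hgap.1; omega) (j + g j) hgap.2.1 (by rwa [← e1])
        rw [← e1] at h2
        rw [← Finset.sum_Ico_consecutive φ (show j ≤ j + g j by omega)
          (show j + g j ≤ j + m by omega), h2]
        have h3 : ∑ i ∈ Ico j (j + g j), φ i = g j := by
          rw [Finset.sum_eq_single_of_mem j (by rw [mem_Ico]; have := hgap.1; omega)]
          · simp only [hφ, if_pos hj]
          · intro i hi hij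
            rw [mem_Ico] at hi
            have h4 := hgap.2.2 (i - j) (by omega) (by omega)
            rw [show j + (i - j) = i by omega] at h4
            simp only [hφ, if_neg (not_le.2 h4)]
        rw [h3]; omega
  have hφper : ∀ i, φ (i + n) = φ i := by
    intro i
    simp only [hφ, h.per]
    by_cases hi : v (W i) ≤ 1
    · rw [if_pos hi, if_pos hi]
      have h1 := hg (i + n) (by rwa [h.per])
      have h2 := hg i hi
      refine IsGap.unique v (W := W) (i := i) ?_ h2
      refine ⟨h1.1, ?_, ?_⟩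
      · have := h1.2.1
        rwa [show i + n + g (i + n) = i + g (i + n) + n by ring, h.per] at this
      · intro l hl0 hl
        have := h1.2.2 l hl0 hl
        rwa [show i + n + l = i + l + n by ring, h.per] at this
    · rw [if_neg hi, if_neg hi]
  obtain ⟨i1, hi1⟩ := hex
  set i0 := i1 % n with hi0
  have hi0n : i0 < n := Nat.mod_lt _ h.npos
  have hv : v (W i0) ≤ 1 := by rw [hi0, hper.map_mod_nat]; exact hi1
  have h1 := key n i0 hv (by rw [h.per]; exact hv)
  rw [sum_filter]
  rw [← Finset.sum_Ico_consecutive φ (show i0 ≤ n by omega) (show n ≤ i0 + n by omega)] at h1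
  have h2 : ∑ i ∈ Ico n (i0 + n), φ i = ∑ i ∈ range i0, φ i := by
    rw [Finset.sum_Ico_eq_sum_range, show i0 + n - n = i0 by omega]
    refine sum_congr rfl fun i _ => ?_
    rw [add_comm, hφper]
  rw [h2] at h1
  have h3 := Finset.sum_range_add_sum_Ico φ (show i0 ≤ n by omega)
  rw [← h3, add_comm]
  exact h1

end H2

/-! ## Module H3 (Beta): valuations below a Gauss-type valuation -/
section H3

variable {K : Type*} [Field K] {b : K}

private theorem h96_coarse {ν' ν : ValuationSubring K} (hle : ν' ≤ ν) {x : K}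
    (hx : ν.valuation x < 1) : ν'.valuation x < 1 := by
  by_contra hcon
  have hx0 : x ≠ 0 := by
    rintro rfl
    exact hcon (by rw [map_zero]; exact zero_lt_one)
  have h1 : ν'.valuation x⁻¹ ≤ 1 := by
    rw [map_inv₀]
    exact inv_le_one_of_one_le₀ (not_lt.1 hcon)
  have h2 : ν.valuation x⁻¹ ≤ 1 :=
    (ν.valuation_le_one_iff _).2 (hle ((ν'.valuation_le_one_iff _).1 h1))
  rw [map_inv₀] at h2
  have h3 : 1 < (ν.valuation x)⁻¹ :=
    (one_lt_inv₀ (zero_lt_iff.2 ((Valuation.ne_zero_iff _).2 hx0))).2 hx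
  exact absurd h2 (not_le.2 h3)

theorem beta {ν' ν : ValuationSubring K} (hle : ν' ≤ ν) (h2 : ν.valuation 2 < 1)
    (h1 : ∀ j, 0 < j → ν.valuation (b ^ j - 1) = 1) {q0 : ℕ} (hq : Odd q0)
    (hb : ν'.valuation (b ^ q0 - 1) < 1) (l : ℕ) {u : ℕ} (hu : Odd u) :
    ν'.valuation (b ^ (q0 * 2 ^ l * u) - 1) = ν'.valuation (b ^ q0 - 1) ^ 2 ^ l := by
  have hq0 : 0 < q0 := hq.pos
  have h2' : ν'.valuation 2 < 1 := h96_coarse hle h2
  have hb1 : ν'.valuation b = 1 := by
    have h3 : ν'.valuation (b ^ q0) = 1 := by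
      have e : b ^ q0 = 1 + (b ^ q0 - 1) := by ring
      rw [e, Valuation.map_add_eq_of_lt_left, map_one]
      rwa [map_one]
    rw [map_pow] at h3
    exact (pow_eq_one_iff_of_nonneg zero_le hq0.ne').1 h3
  -- doubling
  have hdouble : ∀ j, 0 < j → ν'.valuation (b ^ (j * 2) - 1) = ν'.valuation (b ^ j - 1) ^ 2 := by
    intro j hj
    have hne : b ^ j - 1 ≠ 0 := by
      intro h0
      have := h1 j hj
      rw [h0, map_zero] at this
      exact zero_ne_one this
    have h3 : ν'.valuation (2 / (b ^ j - 1)) < 1 := by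
      refine h96_coarse hle ?_
      rw [map_div₀, h1 j hj, div_one]
      exact h2
    have h4 : ν'.valuation 2 < ν'.valuation (b ^ j - 1) := by
      rw [map_div₀, div_lt_one₀ (zero_lt_iff.2 ((Valuation.ne_zero_iff _).2 hne))] at h3
      exact h3
    have e : b ^ (j * 2) - 1 = (b ^ j - 1) * ((b ^ j - 1) + 2) := by
      rw [pow_mul]; ring
    rw [e, map_mul, Valuation.map_add_eq_of_lt_left _ h4, pow_two]
  have hpow : ∀ l : ℕ, ν'.valuation (b ^ (q0 * 2 ^ l) - 1) = ν'.valuation (b ^ q0 - 1) ^ 2 ^ l := by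
    intro l
    induction l with
    | zero => simp
    | succ l ih =>
      rw [pow_succ, ← mul_assoc, hdouble _ (by positivity), ih, ← pow_mul]
  rw [← hpow l]
  -- odd multiples
  have hnat : ∀ k : ℕ, ν'.valuation (k : K) ≤ 1 := fun k => by
    rw [ValuationSubring.valuation_le_one_iff]
    exact natCast_mem ν' k
  have huv : ν'.valuation (u : K) = 1 := by
    obtain ⟨k, hk⟩ := hu
    rw [hk, Nat.cast_add, Nat.cast_mul, Nat.cast_one, Nat.cast_two, add_comm,
      Valuation.map_add_eq_of_lt_left, map_one]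
    rw [map_one, map_mul]
    calc ν'.valuation 2 * ν'.valuation (k : K) ≤ ν'.valuation 2 * 1 := by gcongr; exact hnat k
      _ < 1 := by rwa [mul_one]
  have hx : ν'.valuation (b ^ (q0 * 2 ^ l) - 1) < 1 := by
    rw [hpow]
    exact pow_lt_one' hb (by positivity)
  set x := b ^ (q0 * 2 ^ l) with hxdef
  have hx1 : ν'.valuation x ≤ 1 := by
    rw [hxdef, map_pow, hb1, one_pow]
  have e : b ^ (q0 * 2 ^ l * u) - 1 = (x - 1) * ∑ i ∈ range u, x ^ i := by
    rw [pow_mul, mul_geom_sum]
  have hsum : ν'.valuation (∑ i ∈ range u, x ^ i) = 1 := by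
    have h5 : ν'.valuation (∑ i ∈ range u, x ^ i - u) < 1 := by
      have e2 : ∑ i ∈ range u, x ^ i - u = ∑ i ∈ range u, (x ^ i - 1) := by
        rw [Finset.sum_sub_distrib]; simp
      rw [e2]
      refine Valuation.map_sum_lt _ one_ne_zero fun i _ => ?_
      have e3 : x ^ i - 1 = (x - 1) * ∑ j ∈ range i, x ^ j := (mul_geom_sum x i).symm
      rw [e3, map_mul]
      have h6 : ν'.valuation (∑ j ∈ range i, x ^ j) ≤ 1 :=
        Valuation.map_sum_le _ fun j _ => by rw [map_pow]; exact pow_le_one' hx1 j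
      calc ν'.valuation (x - 1) * ν'.valuation (∑ j ∈ range i, x ^ j)
          ≤ ν'.valuation (x - 1) * 1 := by gcongr
        _ < 1 := by rwa [mul_one]
    have e4 : ∑ i ∈ range u, x ^ i = (u : K) + (∑ i ∈ range u, x ^ i - u) := by ring
    rw [e4, Valuation.map_add_eq_of_lt_left, huv]
    rw [huv]; exact h5
  rw [e, map_mul, hsum, mul_one]

end H3

end Pool.Agent.helper56.P3
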